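import Pool.Agent.W823.CT.Stm

/-!
CT-DYN of helper823's project on MP_6504f0_pr: the uniformised chain of random walk on dynamical
percolation.
-/

open MeasureTheory ProbabilityTheory
open scoped ENNReal BigOperators

set_option linter.unusedSectionVars false

namespace Pool.Agent.W63.CTDYN

open Pool.Agent.W823.CT

/-! ### resampling one coordinate -/

section Resample

variable {E : Type} [Fintype E] [DecidableEq E]

/-- flip one coordinate -/
def flip (e : E) (η : E → Bool) : E → Bool := Function.update η e (!(η e))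

theorem flip_flip (e : E) : Function.Involutive (flip e) := by
  intro η
  simp [flip]

theorem sum_flip (e : E) (G : (E → Bool) → ℝ) : ∑ η, G η =
    (1 / 2) * ∑ η, (G (Function.update η e true) + G (Function.update η e false)) := by
  have h1 : ∑ η, G (flip e η) = ∑ η, G η := Equiv.sum_comp (flip_flip e).toPerm G
  have h2 : ∀ η, G (Function.update η e true) + G (Function.update η e false) =
      G η + G (flip e η) := by
    intro η
    cases h : η e
    · have h3 : Function.update η e false = η := by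
        rw [← h, Function.update_eq_self]
      rw [h3, flip, h, Bool.not_false, add_comm]
    · have h3 : Function.update η e true = η := by
        rw [← h, Function.update_eq_self]
      rw [h3, flip, h, Bool.not_true]
  rw [Finset.sum_congr rfl fun η _ => h2 η, Finset.sum_add_distrib, h1]
  ring

theorem bnu_update (p : ℝ) (e : E) (η : E → Bool) (b : Bool) :
    bnu p (Function.update η e b) = (if b = true then p else 1 - p) *
      ∏ e' ∈ Finset.univ.erase e, (if η e' = true then p else 1 - p) := by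
  rw [bnu, ← Finset.mul_prod_erase _ _ (Finset.mem_univ e), Function.update_self]
  congr 1
  refine Finset.prod_congr rfl fun e' he' => ?_
  rw [Function.update_of_ne (Finset.ne_of_mem_erase he')]

theorem resample (p : ℝ) (e : E) (F : (E → Bool) → ℝ) : ∑ η, bnu p η * F η =
    ∑ η, bnu p η * (p * F (Function.update η e true) +
      (1 - p) * F (Function.update η e false)) := by
  rw [sum_flip e (fun η => bnu p η * F η), sum_flip e (fun η => bnu p η *
    (p * F (Function.update η e true) + (1 - p) * F (Function.update η e false)))]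
  congr 1
  refine Finset.sum_congr rfl fun η _ => ?_
  simp only [Function.update_idem, bnu_update, if_true, Bool.false_eq_true, if_false]
  ring

theorem refresh (p : ℝ) (e : E) (f g : (E → Bool) → ℝ) :
    ∑ η, bnu p η * (f η * (p * g (Function.update η e true) +
      (1 - p) * g (Function.update η e false) - g η)) =
    - ∑ η, bnu p η * (p * (1 - p) * ((f (Function.update η e true) -
      f (Function.update η e false)) * (g (Function.update η e true) -
        g (Function.update η e false)))) := by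
  rw [resample p e, ← Finset.sum_neg_distrib]
  refine Finset.sum_congr rfl fun η _ => ?_
  simp only [Function.update_idem]
  ring

theorem refresh_le (p : ℝ) (hp0 : 0 < p) (hp1 : p < 1) (e : E) (f : (E → Bool) → ℝ) :
    ∑ η, bnu p η * (p * (1 - p) * (f (Function.update η e true) -
      f (Function.update η e false)) ^ 2) ≤ ∑ η, bnu p η * f η ^ 2 := by
  rw [resample p e (fun η => f η ^ 2)]
  refine Finset.sum_le_sum fun η _ => ?_
  refine mul_le_mul_of_nonneg_left ?_ ?_
  · nlinarith [sq_nonneg (p * f (Function.update η e true) +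
      (1 - p) * f (Function.update η e false))]
  · refine Finset.prod_nonneg fun e' _ => ?_
    split_ifs <;> linarith

theorem bnu_pos (p : ℝ) (hp0 : 0 < p) (hp1 : p < 1) (η : E → Bool) : 0 < bnu p η := by
  refine Finset.prod_pos fun e' _ => ?_
  split_ifs <;> linarith

theorem bnu_sum (p : ℝ) : ∑ η : E → Bool, bnu p η = 1 := by
  have h := Finset.prod_univ_sum (fun _ : E => (Finset.univ : Finset Bool))
    (fun _ b => if b = true then p else 1 - p)
  simp only [Fintype.piFinset_univ] at h
  change ∑ η : E → Bool, ∏ e, (if η e = true then p else 1 - p) = 1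
  rw [← h]
  simp

end Resample

/-! ### the transition operator -/

section Chain

variable {V : Type} [Fintype V] [DecidableEq V] (G : SimpleGraph V) [DecidableRel G.Adj]
  (μ p Λ : ℝ)

/-- the indicator of an open edge -/
def aj (x y : V) (η : G.edgeSet → Bool) : ℝ :=
  if h : G.Adj x y then (if η ⟨s(x, y), h⟩ = true then 1 else 0) else 0

theorem aj_symm (x y : V) (η : G.edgeSet → Bool) : aj G x y η = aj G y x η := by
  unfold aj
  by_cases h : G.Adj x y
  · rw [dif_pos h, dif_pos h.symm]
    have : (⟨s(x, y), h⟩ : G.edgeSet) = ⟨s(y, x), h.symm⟩ := Subtype.ext Sym2.eq_swap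
    rw [this]
  · rw [dif_neg h, dif_neg fun h' => h h'.symm]

theorem aj_nonneg (x y : V) (η : G.edgeSet → Bool) : 0 ≤ aj G x y η := by
  unfold aj
  split_ifs <;> norm_num

theorem aj_le_one (x y : V) (η : G.edgeSet → Bool) : aj G x y η ≤ 1 := by
  unfold aj
  split_ifs <;> norm_num

/-- the transition operator of the uniformised chain -/
noncomputable def T : (V × (G.edgeSet → Bool) → ℝ) →ₗ[ℝ] (V × (G.edgeSet → Bool) → ℝ) where
  toFun f s := f s + Λ⁻¹ * (μ * ∑ e : G.edgeSet, (p * f (s.1, Function.update s.2 e true) +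
    (1 - p) * f (s.1, Function.update s.2 e false) - f s) +
      ∑ y, aj G s.1 y s.2 * (f (y, s.2) - f s))
  map_add' f g := by
    funext s
    simp only [Pi.add_apply]
    have h1 : ∀ e : G.edgeSet, p * (f (s.1, Function.update s.2 e true) +
        g (s.1, Function.update s.2 e true)) + (1 - p) * (f (s.1, Function.update s.2 e false) +
        g (s.1, Function.update s.2 e false)) - (f s + g s) =
        (p * f (s.1, Function.update s.2 e true) + (1 - p) * f (s.1, Function.update s.2 e false) -
          f s) + (p * g (s.1, Function.update s.2 e true) +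
          (1 - p) * g (s.1, Function.update s.2 e false) - g s) := fun e => by ring
    have h2 : ∀ y, aj G s.1 y s.2 * (f (y, s.2) + g (y, s.2) - (f s + g s)) =
        aj G s.1 y s.2 * (f (y, s.2) - f s) + aj G s.1 y s.2 * (g (y, s.2) - g s) :=
      fun y => by ring
    simp only [h1, h2, Finset.sum_add_distrib]
    ring
  map_smul' c f := by
    funext s
    simp only [Pi.smul_apply, smul_eq_mul, RingHom.id_apply]
    have h1 : ∀ e : G.edgeSet, p * (c * f (s.1, Function.update s.2 e true)) +
        (1 - p) * (c * f (s.1, Function.update s.2 e false)) - c * f s =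
        c * (p * f (s.1, Function.update s.2 e true) +
          (1 - p) * f (s.1, Function.update s.2 e false) - f s) := fun e => by ring
    have h2 : ∀ y, aj G s.1 y s.2 * (c * f (y, s.2) - c * f s) =
        c * (aj G s.1 y s.2 * (f (y, s.2) - f s)) := fun y => by ring
    simp only [h1, h2, ← Finset.mul_sum]
    ring

theorem T_apply (f : V × (G.edgeSet → Bool) → ℝ) (s : V × (G.edgeSet → Bool)) :
    T G μ p Λ f s = f s + Λ⁻¹ * (μ * ∑ e : G.edgeSet, (p * f (s.1, Function.update s.2 e true) +
    (1 - p) * f (s.1, Function.update s.2 e false) - f s) +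
      ∑ y, aj G s.1 y s.2 * (f (y, s.2) - f s)) := rfl

/-- the stationary inner product -/
noncomputable def S (f g : V × (G.edgeSet → Bool) → ℝ) : ℝ := ∑ s, bnu p s.2 * f s * g s

/-- the refresh part of the Dirichlet form -/
noncomputable def ER (f g : V × (G.edgeSet → Bool) → ℝ) : ℝ :=
  ∑ x, ∑ e : G.edgeSet, ∑ η, bnu p η * (p * (1 - p) * ((f (x, Function.update η e true) -
      f (x, Function.update η e false)) * (g (x, Function.update η e true) -
        g (x, Function.update η e false))))

/-- the jump part of the Dirichlet form -/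
noncomputable def EJ (f g : V × (G.edgeSet → Bool) → ℝ) : ℝ :=
  (1 / 2) * ∑ x, ∑ y, ∑ η, bnu p η * (aj G x y η * ((f (x, η) - f (y, η)) *
    (g (x, η) - g (y, η))))

theorem ER_symm (f g : V × (G.edgeSet → Bool) → ℝ) : ER G p f g = ER G p g f := by
  unfold ER
  refine Finset.sum_congr rfl fun x _ => Finset.sum_congr rfl fun e _ =>
    Finset.sum_congr rfl fun η _ => ?_
  ring

theorem EJ_symm (f g : V × (G.edgeSet → Bool) → ℝ) : EJ G p f g = EJ G p g f := by
  unfold EJ
  congr 1
  refine Finset.sum_congr rfl fun x _ => Finset.sum_congr rfl fun e _ =>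
    Finset.sum_congr rfl fun η _ => ?_
  ring

theorem jump (f g : V × (G.edgeSet → Bool) → ℝ) :
    ∑ x, ∑ y, ∑ η, bnu p η * (f (x, η) * (aj G x y η * (g (y, η) - g (x, η)))) =
      - EJ G p f g := by
  have h1 : ∑ x, ∑ y, ∑ η, bnu p η * (f (x, η) * (aj G x y η * (g (y, η) - g (x, η)))) =
      ∑ x, ∑ y, ∑ η, bnu p η * (f (y, η) * (aj G x y η * (g (x, η) - g (y, η)))) := by
    rw [Finset.sum_comm]
    refine Finset.sum_congr rfl fun x _ => Finset.sum_congr rfl fun y _ =>
      Finset.sum_congr rfl fun η _ => ?_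
    rw [aj_symm G y x]
  have h2 : ∀ A : ℝ, A = (1 / 2) * (A + A) := fun A => by ring
  rw [h2 (∑ x, ∑ y, ∑ η, bnu p η * (f (x, η) * (aj G x y η * (g (y, η) - g (x, η)))))]
  nth_rewrite 2 [h1]
  unfold EJ
  rw [← mul_neg]
  congr 1
  rw [← Finset.sum_add_distrib, ← Finset.sum_neg_distrib]
  refine Finset.sum_congr rfl fun x _ => ?_
  rw [← Finset.sum_add_distrib, ← Finset.sum_neg_distrib]
  refine Finset.sum_congr rfl fun y _ => ?_
  rw [← Finset.sum_add_distrib, ← Finset.sum_neg_distrib]
  refine Finset.sum_congr rfl fun η _ => ?_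
  ring

theorem key (f g : V × (G.edgeSet → Bool) → ℝ) :
    S G p f (T G μ p Λ g) = S G p f g - Λ⁻¹ * (μ * ER G p f g + EJ G p f g) := by
  have h1 : S G p f (T G μ p Λ g) = S G p f g + Λ⁻¹ * (μ * ∑ s : V × (G.edgeSet → Bool),
      bnu p s.2 * (f s * ∑ e : G.edgeSet, (p * g (s.1, Function.update s.2 e true) +
        (1 - p) * g (s.1, Function.update s.2 e false) - g s)) +
      ∑ s : V × (G.edgeSet → Bool), bnu p s.2 * (f s * ∑ y, aj G s.1 y s.2 *
        (g (y, s.2) - g s))) := by
    unfold S
    rw [Finset.mul_sum, ← Finset.sum_add_distrib, Finset.mul_sum, ← Finset.sum_add_distrib]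
    refine Finset.sum_congr rfl fun s _ => ?_
    rw [T_apply]
    ring
  have h2 : ∑ s : V × (G.edgeSet → Bool),
      bnu p s.2 * (f s * ∑ e : G.edgeSet, (p * g (s.1, Function.update s.2 e true) +
        (1 - p) * g (s.1, Function.update s.2 e false) - g s)) = - ER G p f g := by
    rw [Fintype.sum_prod_type]
    unfold ER
    rw [← Finset.sum_neg_distrib]
    refine Finset.sum_congr rfl fun x _ => ?_
    simp only [Finset.mul_sum]
    rw [Finset.sum_comm, ← Finset.sum_neg_distrib]
    refine Finset.sum_congr rfl fun e _ => ?_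
    exact refresh p e (fun η => f (x, η)) (fun η => g (x, η))
  have h3 : ∑ s : V × (G.edgeSet → Bool), bnu p s.2 * (f s * ∑ y, aj G s.1 y s.2 *
        (g (y, s.2) - g s)) = - EJ G p f g := by
    rw [Fintype.sum_prod_type, ← jump]
    refine Finset.sum_congr rfl fun x _ => ?_
    simp only [Finset.mul_sum]
    rw [Finset.sum_comm]
  rw [h1, h2, h3]
  ring

theorem S_symm (f g : V × (G.edgeSet → Bool) → ℝ) : S G p f g = S G p g f := by
  unfold S
  exact Finset.sum_congr rfl fun s _ => by ring

theorem S_single (h : V × (G.edgeSet → Bool) → ℝ) (s : V × (G.edgeSet → Bool)) :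
    S G p (Pi.single s 1) h = bnu p s.2 * h s := by
  unfold S
  rw [Finset.sum_eq_single s]
  · simp
  · intro t _ hts
    rw [Pi.single_eq_of_ne hts]
    ring
  · intro h
    exact absurd (Finset.mem_univ s) h

theorem T_sum (f : V × (G.edgeSet → Bool) → ℝ) (s : V × (G.edgeSet → Bool)) :
    ∑ s', T G μ p Λ (Pi.single s' 1) s * f s' = T G μ p Λ f s := by
  have h1 : f = ∑ s', f s' • (Pi.single s' (1 : ℝ) : V × (G.edgeSet → Bool) → ℝ) := by
    funext t
    simp [Finset.sum_apply, Pi.single_apply]
  conv_rhs => rw [h1, map_sum]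
  rw [Finset.sum_apply]
  refine Finset.sum_congr rfl fun s' _ => ?_
  rw [map_smul, Pi.smul_apply, smul_eq_mul, mul_comm]

theorem T_nonneg (hμ : 0 < μ) (hp0 : 0 < p) (hp1 : p < 1) (hΛ : 0 < Λ)
    (h : 2 * (μ * Fintype.card G.edgeSet + Fintype.card V) ≤ Λ)
    (f : V × (G.edgeSet → Bool) → ℝ) (hf : ∀ s, 0 ≤ f s) (s : V × (G.edgeSet → Bool)) :
    0 ≤ T G μ p Λ f s := by
  rw [T_apply]
  have h1 : ∑ e : G.edgeSet, (- f s) ≤ ∑ e : G.edgeSet, (p * f (s.1, Function.update s.2 e true) +
      (1 - p) * f (s.1, Function.update s.2 e false) - f s) := by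
    refine Finset.sum_le_sum fun e _ => ?_
    have h2 := mul_nonneg hp0.le (hf (s.1, Function.update s.2 e true))
    have h3 := mul_nonneg (by linarith : 0 ≤ 1 - p) (hf (s.1, Function.update s.2 e false))
    linarith
  have h2 : ∑ y : V, (- f s) ≤ ∑ y, aj G s.1 y s.2 * (f (y, s.2) - f s) := by
    refine Finset.sum_le_sum fun y _ => ?_
    have h3 := mul_nonneg (aj_nonneg G s.1 y s.2) (hf (y, s.2))
    have h4 := mul_le_mul_of_nonneg_right (aj_le_one G s.1 y s.2) (hf s)
    linarith
  rw [Finset.sum_const, Finset.card_univ, nsmul_eq_mul] at h1 h2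
  have h3 := mul_le_mul_of_nonneg_left h1 hμ.le
  have h5 : Λ⁻¹ * (μ * (Fintype.card G.edgeSet * - f s) + Fintype.card V * - f s) ≤
      Λ⁻¹ * (μ * ∑ e : G.edgeSet, (p * f (s.1, Function.update s.2 e true) +
      (1 - p) * f (s.1, Function.update s.2 e false) - f s) +
      ∑ y, aj G s.1 y s.2 * (f (y, s.2) - f s)) :=
    mul_le_mul_of_nonneg_left (by linarith) (inv_nonneg.2 hΛ.le)
  have h6 : Λ⁻¹ * ((μ * Fintype.card G.edgeSet + Fintype.card V) * f s) ≤ f s := by
    rw [inv_mul_le_iff₀ hΛ]
    refine mul_le_mul_of_nonneg_right ?_ (hf s)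
    have : 0 ≤ μ * Fintype.card G.edgeSet := by positivity
    have : (0 : ℝ) ≤ Fintype.card V := by positivity
    linarith
  have h7 : Λ⁻¹ * (μ * (Fintype.card G.edgeSet * - f s) + Fintype.card V * - f s) =
      - (Λ⁻¹ * ((μ * Fintype.card G.edgeSet + Fintype.card V) * f s)) := by ring
  linarith

theorem T_one (s : V × (G.edgeSet → Bool)) : T G μ p Λ (fun _ => 1) s = 1 := by
  rw [T_apply]
  simp

/-- the uniformised chain -/
noncomputable def chain (hμ : 0 < μ) (hp0 : 0 < p) (hp1 : p < 1) (hΛ : 0 < Λ)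
    (h : 2 * (μ * Fintype.card G.edgeSet + Fintype.card V) ≤ Λ) :
    BC V (G.edgeSet → Bool) where
  ν := bnu p
  K s s' := T G μ p Λ (Pi.single s' 1) s
  ν_pos := bnu_pos p hp0 hp1
  ν_sum := bnu_sum p
  K_nonneg s s' := T_nonneg G μ p Λ hμ hp0 hp1 hΛ h _ (fun t => by
    by_cases ht : t = s'
    · subst ht
      simp
    · rw [Pi.single_eq_of_ne ht]) s
  K_sum s := by
    have := T_sum G μ p Λ (fun _ => 1) s
    simp only [mul_one] at this
    rw [this, T_one]
  K_symm s s' := by
    rw [← S_single G p, ← S_single G p, key, key, S_symm, ER_symm, EJ_symm]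

variable {G μ p Λ} (hμ : 0 < μ) (hp0 : 0 < p) (hp1 : p < 1) (hΛ : 0 < Λ)
    (h : 2 * (μ * Fintype.card G.edgeSet + Fintype.card V) ≤ Λ)

theorem chain_P (f : V × (G.edgeSet → Bool) → ℝ) :
    (chain G μ p Λ hμ hp0 hp1 hΛ h).P f = T G μ p Λ f := by
  funext s
  exact T_sum G μ p Λ f s

theorem chain_ip (f g : V × (G.edgeSet → Bool) → ℝ) :
    (chain G μ p Λ hμ hp0 hp1 hΛ h).ip f g = S G p f g := rfl

theorem chain_Dir (g : V × (G.edgeSet → Bool) → ℝ) :
    (chain G μ p Λ hμ hp0 hp1 hΛ h).Dir g = Λ⁻¹ * (μ * ER G p g g + EJ G p g g) := by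
  rw [BC.Dir, chain_P, chain_ip, chain_ip, key]
  ring

theorem EJ_nonneg (hp0 : 0 < p) (hp1 : p < 1) (g : V × (G.edgeSet → Bool) → ℝ) :
    0 ≤ EJ G p g g := by
  unfold EJ
  refine mul_nonneg (by norm_num) (Finset.sum_nonneg fun x _ => Finset.sum_nonneg fun y _ =>
    Finset.sum_nonneg fun η _ => mul_nonneg (bnu_pos p hp0 hp1 η).le
      (mul_nonneg (aj_nonneg G x y η) (mul_self_nonneg _)))

theorem EJ_le (hp0 : 0 < p) (hp1 : p < 1) (g : V × (G.edgeSet → Bool) → ℝ) :
    EJ G p g g ≤ 2 * Fintype.card V * S G p g g := by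
  have h1 : EJ G p g g ≤ (1 / 2) * ∑ x : V, ∑ y : V, ∑ η, bnu p η *
      (2 * g (x, η) ^ 2 + 2 * g (y, η) ^ 2) := by
    unfold EJ
    refine mul_le_mul_of_nonneg_left (Finset.sum_le_sum fun x _ => Finset.sum_le_sum fun y _ =>
      Finset.sum_le_sum fun η _ => mul_le_mul_of_nonneg_left ?_ (bnu_pos p hp0 hp1 η).le)
      (by norm_num)
    have h2 := mul_le_mul_of_nonneg_right (aj_le_one G x y η) (mul_self_nonneg (g (x, η) -
      g (y, η)))
    nlinarith [sq_nonneg (g (x, η) + g (y, η))]
  refine h1.trans_eq ?_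
  have h3 : S G p g g = ∑ x : V, ∑ η, bnu p η * g (x, η) ^ 2 := by
    unfold S
    rw [Fintype.sum_prod_type]
    exact Finset.sum_congr rfl fun x _ => Finset.sum_congr rfl fun η _ => by ring
  have h4 : ∑ x : V, ∑ y : V, ∑ η, bnu p η * (2 * g (x, η) ^ 2 + 2 * g (y, η) ^ 2) =
      ∑ x : V, ∑ y : V, (2 * ∑ η, bnu p η * g (x, η) ^ 2) +
      ∑ x : V, ∑ y : V, (2 * ∑ η, bnu p η * g (y, η) ^ 2) := by
    rw [← Finset.sum_add_distrib]
    refine Finset.sum_congr rfl fun x _ => ?_
    rw [← Finset.sum_add_distrib]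
    refine Finset.sum_congr rfl fun y _ => ?_
    rw [Finset.mul_sum, Finset.mul_sum, ← Finset.sum_add_distrib]
    exact Finset.sum_congr rfl fun η _ => by ring
  rw [h4, h3, Finset.sum_comm (f := fun x y : V => 2 * ∑ η, bnu p η * g (x, η) ^ 2)]
  simp only [Finset.sum_const, Finset.card_univ, nsmul_eq_mul, ← Finset.mul_sum]
  ring

theorem ER_le (hp0 : 0 < p) (hp1 : p < 1) (g : V × (G.edgeSet → Bool) → ℝ) :
    ER G p g g ≤ Fintype.card G.edgeSet * S G p g g := by
  have h3 : S G p g g = ∑ x : V, ∑ η, bnu p η * g (x, η) ^ 2 := by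
    unfold S
    rw [Fintype.sum_prod_type]
    exact Finset.sum_congr rfl fun x _ => Finset.sum_congr rfl fun η _ => by ring
  rw [h3, Finset.mul_sum]
  unfold ER
  refine Finset.sum_le_sum fun x _ => ?_
  have h4 : ∀ e : G.edgeSet, ∑ η, bnu p η * (p * (1 - p) * ((g (x, Function.update η e true) -
      g (x, Function.update η e false)) * (g (x, Function.update η e true) -
        g (x, Function.update η e false)))) ≤ ∑ η, bnu p η * g (x, η) ^ 2 := by
    intro e
    have := refresh_le p hp0 hp1 e (fun η => g (x, η))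
    simpa only [pow_two] using this
  refine (Finset.sum_le_sum fun e _ => h4 e).trans_eq ?_
  rw [Finset.sum_const, Finset.card_univ, nsmul_eq_mul]

/-- the refresh energy at one vertex and one edge -/
noncomputable def De (G : SimpleGraph V) [DecidableRel G.Adj] (p : ℝ)
    (g : V × (G.edgeSet → Bool) → ℝ) (x : V) (e : G.edgeSet) : ℝ :=
  ∑ η, bnu p η * (p * (1 - p) * (g (x, Function.update η e true) -
      g (x, Function.update η e false)) ^ 2)

theorem De_nonneg (hp0 : 0 < p) (hp1 : p < 1) (g : V × (G.edgeSet → Bool) → ℝ) (x : V)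
    (e : G.edgeSet) : 0 ≤ De G p g x e :=
  Finset.sum_nonneg fun η _ => mul_nonneg (bnu_pos p hp0 hp1 η).le
    (mul_nonneg (mul_nonneg hp0.le (by linarith)) (sq_nonneg _))

theorem ER_eq (g : V × (G.edgeSet → Bool) → ℝ) : ER G p g g = ∑ x, ∑ e, De G p g x e := by
  unfold ER De
  refine Finset.sum_congr rfl fun x _ => Finset.sum_congr rfl fun e _ =>
    Finset.sum_congr rfl fun η _ => ?_
  ring

theorem sum_nbr_le (F : G.edgeSet → ℝ) (hF : ∀ e, 0 ≤ F e) (x : V) :
    ∑ y, (if h : G.Adj x y then F ⟨s(x, y), h⟩ else 0) ≤ ∑ e, F e := by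
  classical
  set f : V → ℝ := fun y => if h : G.Adj x y then F ⟨s(x, y), h⟩ else 0 with hf
  have h1 : ∑ y, f y = ∑ y ∈ Finset.univ.filter (fun y => G.Adj x y), f y := by
    rw [Finset.sum_filter]
    refine Finset.sum_congr rfl fun y _ => ?_
    by_cases h : G.Adj x y
    · rw [if_pos h]
    · rw [if_neg h, hf]
      simp only [dif_neg h]
  have h2 : ∑ y, f y = ∑ y : {y // G.Adj x y}, f y := by
    rw [h1, ← Finset.sum_subtype_eq_sum_filter, Finset.subtype_univ]
  set φ : {y // G.Adj x y} → G.edgeSet := fun y => ⟨s(x, y.1), y.2⟩ with hφ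
  have hinj : Function.Injective φ := by
    intro y z hyz
    have h3 : s(x, y.1) = s(x, z.1) := congrArg Subtype.val hyz
    exact Subtype.ext (Sym2.congr_right.1 h3)
  have h3 : ∑ y : {y // G.Adj x y}, f y = ∑ e ∈ Finset.univ.map ⟨φ, hinj⟩, F e := by
    rw [Finset.sum_map]
    refine Finset.sum_congr rfl fun y _ => ?_
    rw [hf]
    simp only [dif_pos y.2]
    rfl
  rw [h2, h3]
  exact Finset.sum_le_sum_of_subset_of_nonneg (Finset.subset_univ _) fun e _ _ => hF e

end Chain

theorem main (h1 : S_ES) (h2 : S_TWO) (h3 : S_MIX) : S_DYN := by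
  intro V _ _ G _ μ p Λ hμ hμ1 hp0 hp1 hΛ h
  have hm0 : 0 ≤ μ * Fintype.card G.edgeSet := by positivity
  have hn0 : (0 : ℝ) ≤ Fintype.card V := by positivity
  refine ⟨chain G μ p Λ hμ hp0 hp1 hΛ h, fun ω => rfl, ?_, ?_, ?_, ?_, ?_⟩
  · intro f x η A hxA
    have h4 := T_sum G μ p Λ (fun s' => f (s'.1, s'.2, insert s'.1 A)) (x, η)
    change ∑ s', T G μ p Λ (Pi.single s' 1) (x, η) * f (s'.1, s'.2, insert s'.1 A) = _
    rw [h4, T_apply, genFun]
    simp only [Finset.insert_eq_of_mem hxA]
    congr 3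
    refine Finset.sum_congr rfl fun y _ => ?_
    unfold aj
    split_ifs <;> ring
  · intro g
    rw [chain_P, chain_ip, key]
    have h4 := ER_le hp0 hp1 g
    have h5 := EJ_le hp0 hp1 g
    have h6 : 0 ≤ S G p g g := Finset.sum_nonneg fun s _ => by
      rw [mul_assoc]
      exact mul_nonneg (bnu_pos p hp0 hp1 s.2).le (mul_self_nonneg _)
    have h7 : μ * ER G p g g + EJ G p g g ≤
        (μ * Fintype.card G.edgeSet + 2 * Fintype.card V) * S G p g g := by
      have := mul_le_mul_of_nonneg_left h4 hμ.le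
      linarith
    have h8 : (μ * Fintype.card G.edgeSet + 2 * Fintype.card V) * S G p g g ≤ Λ * S G p g g :=
      mul_le_mul_of_nonneg_right (by linarith) h6
    have h9 : Λ⁻¹ * (μ * ER G p g g + EJ G p g g) ≤ S G p g g := by
      rw [inv_mul_le_iff₀ hΛ]
      exact h7.trans h8
    linarith
  · intro g
    rw [chain_Dir]
    have h4 : ∀ x, (chain G μ p Λ hμ hp0 hp1 hΛ h).sq g x -
        (chain G μ p Λ hμ hp0 hp1 hΛ h).blk g x ^ 2 ≤ ∑ e, De G p g x e := fun x =>
      h1 G.edgeSet p (fun η => g (x, η)) hp0 hp1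
    have h5 : ∑ x, ((chain G μ p Λ hμ hp0 hp1 hΛ h).sq g x -
        (chain G μ p Λ hμ hp0 hp1 hΛ h).blk g x ^ 2) ≤ ER G p g g := by
      rw [ER_eq]
      exact Finset.sum_le_sum fun x _ => h4 x
    have h6 := EJ_nonneg (G := G) hp0 hp1 g
    rw [div_eq_inv_mul, mul_assoc]
    refine mul_le_mul_of_nonneg_left ?_ (inv_nonneg.2 hΛ.le)
    have := mul_le_mul_of_nonneg_left h5 hμ.le
    linarith
  · intro f hf k s
    set Q : ((G.edgeSet → Bool) → ℝ) → (G.edgeSet → Bool) → ℝ := fun f ω => f ω + μ / Λ * ∑ e,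
        (p * f (Function.update ω e true) + (1 - p) * f (Function.update ω e false) - f ω) with hQ
    have h4 : ∀ k, ((chain G μ p Λ hμ hp0 hp1 hΛ h).P^[k] (fun s => f s.2)) =
        fun s => (Q^[k] f) s.2 := by
      intro k
      induction k with
      | zero => rfl
      | succ k ih =>
        rw [Function.iterate_succ_apply', ih, chain_P]
        funext s
        rw [T_apply, Function.iterate_succ_apply', hQ]
        simp only [sub_self, mul_zero, Finset.sum_const_zero, add_zero]
        ring
    rw [h4]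
    refine h3 G.edgeSet p (μ / Λ) f hp0 hp1 (by positivity) ?_ hf k s.2
    rw [div_mul_eq_mul_div, div_le_one hΛ]
    linarith
  · intro g
    rw [chain_Dir]
    set N : V → ℝ := (chain G μ p Λ hμ hp0 hp1 hΛ h).nr g with hN
    set d : V → V → ℝ := fun x y => if h : G.Adj x y then De G p g x ⟨s(x, y), h⟩ else 0 with hd
    have h4 : ∀ x y, μ * p / 3 * (if G.Adj x y then (N x - N y) * (N x - N y) else 0) ≤
        ∑ η, bnu p η * (aj G x y η * ((g (x, η) - g (y, η)) * (g (x, η) - g (y, η)))) +
          μ * d x y + μ * d y x := by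
      intro x y
      by_cases hxy : G.Adj x y
      · have h5 := h2 G.edgeSet p μ (fun η => g (x, η)) (fun η => g (y, η)) ⟨s(x, y), hxy⟩
          hp0 hp1 hμ hμ1
        have h6 : d x y = De G p g x ⟨s(x, y), hxy⟩ := by
          rw [hd]
          simp only [dif_pos hxy]
        have h7 : d y x = De G p g y ⟨s(x, y), hxy⟩ := by
          rw [hd]
          simp only [dif_pos hxy.symm]
          congr 1
          exact Subtype.ext Sym2.eq_swap
        have h8 : ∑ η, bnu p η * (aj G x y η * ((g (x, η) - g (y, η)) * (g (x, η) - g (y, η)))) =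
            ∑ η, bnu p η * (if η ⟨s(x, y), hxy⟩ = true then (g (x, η) - g (y, η)) ^ 2 else 0) := by
          refine Finset.sum_congr rfl fun η _ => ?_
          unfold aj
          rw [dif_pos hxy]
          split_ifs <;> ring
        rw [if_pos hxy, h6, h7, h8]
        have h9 : (N x - N y) * (N x - N y) = (√(∑ ω, bnu p ω * g (x, ω) ^ 2) -
            √(∑ ω, bnu p ω * g (y, ω) ^ 2)) ^ 2 := (pow_two _).symm
        rw [h9]
        exact h5
      · have h6 : d x y = 0 := by
          rw [hd]
          simp only [dif_neg hxy]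
        have h7 : d y x = 0 := by
          rw [hd]
          have hyx : ¬ G.Adj y x := fun h' => hxy h'.symm
          simp only [dif_neg hyx]
        rw [if_neg hxy, h6, h7]
        simp only [mul_zero, add_zero]
        exact Finset.sum_nonneg fun η _ => mul_nonneg (bnu_pos p hp0 hp1 η).le
          (mul_nonneg (aj_nonneg G x y η) (mul_self_nonneg _))
    have h5 : μ * p / 3 * (∑ x, ∑ y, if G.Adj x y then (N x - N y) * (N x - N y) else 0) ≤
        2 * EJ G p g g + 2 * (μ * ∑ x, ∑ y, d x y) := by
      have h6 : μ * p / 3 * (∑ x, ∑ y, if G.Adj x y then (N x - N y) * (N x - N y) else 0) =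
          ∑ x, ∑ y, μ * p / 3 * (if G.Adj x y then (N x - N y) * (N x - N y) else 0) := by
        simp only [Finset.mul_sum]
      rw [h6]
      refine (Finset.sum_le_sum fun x _ => Finset.sum_le_sum fun y _ => h4 x y).trans_eq ?_
      simp only [Finset.sum_add_distrib, ← Finset.mul_sum]
      rw [Finset.sum_comm (f := fun x y => d y x)]
      unfold EJ
      ring
    have h6 : ∑ x, ∑ y, d x y ≤ ER G p g g := by
      rw [ER_eq]
      exact Finset.sum_le_sum fun x _ => sum_nbr_le _ (De_nonneg hp0 hp1 g x) x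
    have h7 : μ * p / (3 * Λ) * En G N N = Λ⁻¹ * (μ * p / 3 *
        (∑ x, ∑ y, if G.Adj x y then (N x - N y) * (N x - N y) else 0) / 2) := by
      rw [En]
      field_simp
    rw [h7]
    refine mul_le_mul_of_nonneg_left ?_ (inv_nonneg.2 hΛ.le)
    have := mul_le_mul_of_nonneg_left h6 hμ.le
    linarith

end Pool.Agent.W63.CTDYN
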